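import Pool.Agent.W_MP_1ab439_an.Radial

set_option autoImplicit false

open Real

namespace Pool.Agent.W_MP_1ab439_an

theorem bernoulli_aux {p s : ℝ} (hp : 0 < p) (hs : 1 < s) :
    (p + 1) * s ^ p < p * s ^ (p + 1) + 1 := by
  have hs0 : 0 < s := by linarith
  have h1 := one_add_mul_self_lt_rpow_one_add (s := s⁻¹ - 1) (p := p + 1)
    (by have := inv_pos.2 hs0; linarith) (by
      intro h
      have : s⁻¹ = 1 := by linarith
      have : s = 1 := by simpa using this
      linarith) (by linarith)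
  have h2 : (1 : ℝ) + (s⁻¹ - 1) = s⁻¹ := by ring
  rw [h2, Real.inv_rpow hs0.le] at h1
  have h3 : 0 < s ^ (p + 1) := Real.rpow_pos_of_pos hs0 _
  have h4 : s ^ (p + 1) = s ^ p * s := by rw [Real.rpow_add hs0, Real.rpow_one]
  have h5 : (1 + (p + 1) * (s⁻¹ - 1)) * s ^ (p + 1) < 1 := by
    calc (1 + (p + 1) * (s⁻¹ - 1)) * s ^ (p + 1) < (s ^ (p + 1))⁻¹ * s ^ (p + 1) := by
          exact mul_lt_mul_of_pos_right h1 h3
      _ = 1 := inv_mul_cancel₀ h3.ne'
  have h6 : (1 + (p + 1) * (s⁻¹ - 1)) * s ^ (p + 1) = (p + 1) * s ^ p - p * s ^ (p + 1) := by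
    rw [h4]
    field_simp
    ring
  linarith

theorem gap_pos {p s : ℝ} (hp : 0 < p) (hs : 1 < s) :
    1 / p * (s ^ (p + 1) - s) + 1 / (p + 2) < 1 / (p + 2) * s ^ (p + 2) := by
  let F : ℝ → ℝ := fun x => 1 / (p + 2) * x ^ (p + 2) - 1 / p * (x ^ (p + 1) - x)
  have hd : ∀ x : ℝ, 1 < x → HasDerivAt F (x ^ (p + 1) - 1 / p * ((p + 1) * x ^ p - 1)) x := by
    intro x hx
    have h1 := (Real.hasDerivAt_rpow_const (x := x) (p := p + 2) (Or.inl (by linarith))).const_mul
      (1 / (p + 2))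
    have h2 := (Real.hasDerivAt_rpow_const (x := x) (p := p + 1) (Or.inl (by linarith)))
    have h3 := (h2.sub (hasDerivAt_id x)).const_mul (1 / p)
    refine (h1.sub h3).congr_deriv ?_
    have e1 : p + 2 - 1 = p + 1 := by ring
    have e2 : p + 1 - 1 = p := by ring
    rw [e1, e2]
    field_simp
  have hcont : ContinuousOn F (Set.Ici 1) := by
    intro x hx
    have hx0 : x ≠ 0 := by
      have : (1 : ℝ) ≤ x := hx
      linarith
    refine ContinuousAt.continuousWithinAt ?_
    refine ContinuousAt.sub ?_ ?_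
    · exact continuousAt_const.mul (Real.continuousAt_rpow_const _ _ (Or.inl hx0))
    · exact continuousAt_const.mul
        ((Real.continuousAt_rpow_const _ _ (Or.inl hx0)).sub continuousAt_id)
  have hmono : StrictMonoOn F (Set.Ici 1) := by
    refine strictMonoOn_of_deriv_pos (convex_Ici 1) hcont ?_
    intro x hx
    rw [interior_Ici] at hx
    have hx1 : 1 < x := hx
    rw [(hd x hx1).deriv]
    have h := bernoulli_aux hp hx1
    have h2 : x ^ (p + 1) - 1 / p * ((p + 1) * x ^ p - 1) =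
        1 / p * (p * x ^ (p + 1) + 1 - (p + 1) * x ^ p) := by
      field_simp
      ring
    rw [h2]
    have : 0 < 1 / p := by positivity
    exact mul_pos this (by linarith)
  have h := hmono (Set.mem_Ici.2 (le_refl 1)) (Set.mem_Ici.2 hs.le) hs
  simp only [F, Real.one_rpow] at h
  linarith

theorem log_bound : Real.log (7 / 3) < 8474 / 10000 := by
  rw [Real.log_lt_iff_lt_exp (by norm_num)]
  refine lt_of_lt_of_le ?_ (Real.sum_le_exp_of_nonneg (by norm_num) 8)
  norm_num [Finset.sum_range_succ, Nat.factorial]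

end Pool.Agent.W_MP_1ab439_an
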