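import Pool.Agent.W_MP_1ab439_an.Main

set_option autoImplicit false
set_option maxSynthPendingDepth 3

open MeasureTheory Real Filter Topology

namespace Pool.Agent.W_MP_1ab439_an

variable {n : ℕ}

theorem lin_mem {N : ℕ} (V : Submodule ℝ (Eu n → ℝ)) (u : Fin N → Eu n → ℝ)
    (hu : ∀ i, u i ∈ V) (a : Fin N → ℝ) : lin u a ∈ V := by
  have h : lin u a = ∑ i, a i • u i := by
    funext x
    simp [lin]
  rw [h]
  exact V.sum_mem fun i _ => V.smul_mem _ (hu i)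

theorem exists_sys {Ω : Set (Eu n)} {lam : ℝ} (hl : 0 < lam)
    (V : Submodule ℝ (Eu n → ℝ)) [FiniteDimensional ℝ V]
    (hV : ∀ u ∈ V, ContDiff ℝ (⊤ : ℕ∞) u ∧ HasCompactSupport u ∧ tsupport u ⊆ Ω)
    (hE : ∀ u ∈ V, u ≠ 0 → ∫ x, ‖fderiv ℝ u x‖ ^ 2 < lam * ∫ x, (u x) ^ 2) :
    Nonempty (Sys Ω lam (Module.finrank ℝ V)) := by
  have hG : ∀ u ∈ V, Good u := fun u hu => ⟨(hV u hu).1, (hV u hu).2.1⟩
  have hpos : ∀ u ∈ V, u ≠ 0 → 0 < ∫ x, (u x) ^ 2 := by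
    intro u hu h0
    have h1 := hE u hu h0
    have h2 : 0 ≤ ∫ x, ‖fderiv ℝ u x‖ ^ 2 := integral_nonneg fun x => by positivity
    have h3 : 0 < lam * ∫ x, (u x) ^ 2 := lt_of_le_of_lt h2 h1
    exact pos_of_mul_pos_right h3 hl.le
  obtain ⟨u, hu, horth⟩ := exists_orthonormal V hG hpos
  refine ⟨⟨u, fun i => hG _ (hu i), horth, fun i => (hV _ (hu i)).2.2, fun a => ?_⟩⟩
  have hmem := lin_mem V u hu a
  have hsq := integral_lin_sq_of u (fun i => hG _ (hu i)) horth a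
  by_cases h0 : lin u a = 0
  · rw [h0]
    have h1 : ∀ x : Eu n, fderiv ℝ (0 : Eu n → ℝ) x = 0 := fun x => by
      simp
    simp only [h1, norm_zero]
    have h2 : 0 ≤ lam * ∑ i, a i ^ 2 := by positivity
    simpa using h2
  · rw [← hsq]
    exact (hE _ hmem h0).le

end Pool.Agent.W_MP_1ab439_an
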