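import Mathlib

set_option autoImplicit false
set_option maxSynthPendingDepth 3

open MeasureTheory SchwartzMap FourierTransform Real
open scoped SchwartzMap LineDeriv

namespace Pool.Agent.W_MP_1ab439_an

/-- Euclidean space. -/
abbrev Eu (n : ℕ) := EuclideanSpace ℝ (Fin n)

variable {n : ℕ}

theorem integrable_norm_sq (p : 𝓢(Eu n, ℂ)) : Integrable (fun x => ‖p x‖ ^ 2) :=
  (p.memLp 2).integrable_norm_pow (by norm_num)

theorem fourier_deriv_apply (p : 𝓢(Eu n, ℂ)) (m w : Eu n) :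
    𝓕 (∂_{m} p) w = (2 * π * Complex.I) * (((inner ℝ w m : ℝ) : ℂ) * 𝓕 p w) := by
  rw [fourier_lineDerivOp_eq]
  have h : (inner ℝ · m : Eu n → ℝ).HasTemperateGrowth := by fun_prop
  rw [smul_apply, smulLeftCLM_apply_apply h]
  simp [smul_eq_mul]

/-- Gradient energy of a complex Schwartz function. -/
noncomputable def energy (p : 𝓢(Eu n, ℂ)) : ℝ :=
  ∑ k : Fin n, ∫ x, ‖fderiv ℝ p x (EuclideanSpace.single k 1)‖ ^ 2

theorem norm_fourier_deriv_sq (p : 𝓢(Eu n, ℂ)) (k : Fin n) (w : Eu n) :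
    ‖𝓕 (∂_{(EuclideanSpace.single k 1 : Eu n)} p) w‖ ^ 2 =
      4 * π ^ 2 * ((w k) ^ 2 * ‖𝓕 p w‖ ^ 2) := by
  rw [fourier_deriv_apply]
  simp only [norm_mul, Complex.norm_real, EuclideanSpace.inner_single_right]
  simp only [Complex.norm_ofNat, Complex.norm_I, mul_one, Real.norm_eq_abs,
    conj_trivial, abs_one, one_mul]
  have h1 : |w k| ^ 2 = (w k) ^ 2 := sq_abs _
  have h2 : |π| ^ 2 = π ^ 2 := sq_abs _
  calc (2 * |π| * (|w k| * ‖𝓕 p w‖)) ^ 2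
      = 4 * |π| ^ 2 * (|w k| ^ 2 * ‖𝓕 p w‖ ^ 2) := by ring
    _ = _ := by rw [h1, h2]

theorem integrable_sq_mul (p : 𝓢(Eu n, ℂ)) (k : Fin n) :
    Integrable (fun w : Eu n => (w k) ^ 2 * ‖𝓕 p w‖ ^ 2) := by
  have h := integrable_norm_sq (𝓕 (∂_{(EuclideanSpace.single k 1 : Eu n)} p))
  have h2 : (fun w : Eu n => (w k) ^ 2 * ‖𝓕 p w‖ ^ 2) = fun w => (4 * π ^ 2)⁻¹ *
      ‖𝓕 (∂_{(EuclideanSpace.single k 1 : Eu n)} p) w‖ ^ 2 := by
    funext w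
    rw [norm_fourier_deriv_sq]
    field_simp
  rw [h2]
  exact h.const_mul _

theorem integrable_normsq_mul (p : 𝓢(Eu n, ℂ)) :
    Integrable (fun w : Eu n => ‖w‖ ^ 2 * ‖𝓕 p w‖ ^ 2) := by
  have h : (fun w : Eu n => ‖w‖ ^ 2 * ‖𝓕 p w‖ ^ 2) =
      fun w => ∑ k : Fin n, (w k) ^ 2 * ‖𝓕 p w‖ ^ 2 := by
    funext w
    rw [EuclideanSpace.real_norm_sq_eq, Finset.sum_mul]
  rw [h]
  exact integrable_finsetSum _ fun k _ => integrable_sq_mul p k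

theorem energy_eq (p : 𝓢(Eu n, ℂ)) :
    energy p = 4 * π ^ 2 * ∫ w : Eu n, ‖w‖ ^ 2 * ‖𝓕 p w‖ ^ 2 := by
  have h1 : ∀ k : Fin n, ∫ x, ‖fderiv ℝ p x (EuclideanSpace.single k 1)‖ ^ 2 =
      4 * π ^ 2 * ∫ w : Eu n, (w k) ^ 2 * ‖𝓕 p w‖ ^ 2 := by
    intro k
    have h := integral_norm_sq_fourier (∂_{(EuclideanSpace.single k 1 : Eu n)} p)
    have h2 : ∀ x, ∂_{(EuclideanSpace.single k 1 : Eu n)} p x =
      fderiv ℝ p x (EuclideanSpace.single k 1) := fun x => lineDerivOp_apply_eq_fderiv _ _ _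
    simp only [h2] at h
    rw [← h, ← integral_const_mul]
    congr 1
    funext w
    exact norm_fourier_deriv_sq p k w
  have h : (fun w : Eu n => ‖w‖ ^ 2 * ‖𝓕 p w‖ ^ 2) =
      fun w => ∑ k : Fin n, (w k) ^ 2 * ‖𝓕 p w‖ ^ 2 := by
    funext w
    rw [EuclideanSpace.real_norm_sq_eq, Finset.sum_mul]
  rw [energy, h, integral_finsetSum _ fun k _ => integrable_sq_mul p k, Finset.mul_sum]
  exact Finset.sum_congr rfl fun k _ => h1 k

end Pool.Agent.W_MP_1ab439_an
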