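import Mathlib

set_option autoImplicit false
set_option maxSynthPendingDepth 3

open MeasureTheory Real Filter Topology Set

namespace Pool.Agent.W_MP_1ab439_an

/-- Radial profile `(q²R² - y²)₊ · min(1, R²/y²)`. -/
noncomputable def prof (R q y : ℝ) : ℝ :=
  max (q ^ 2 * R ^ 2 - y ^ 2) 0 * (if y ≤ R then 1 else R ^ 2 / y ^ 2)

theorem prof_nonneg (R q y : ℝ) : 0 ≤ prof R q y := by
  unfold prof
  positivity

theorem prof_low {R q y : ℝ} (hq : 1 < q) (h0 : 0 < y) (hy : y ≤ R) :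
    prof R q y = q ^ 2 * R ^ 2 - y ^ 2 := by
  unfold prof
  have h1 : y ^ 2 ≤ R ^ 2 := by gcongr
  have h2 : R ^ 2 ≤ q ^ 2 * R ^ 2 := by
    have : 1 ≤ q ^ 2 := by nlinarith
    nlinarith [sq_nonneg R]
  rw [max_eq_left (by linarith), if_pos hy, mul_one]

theorem prof_mid {R q y : ℝ} (hR : 0 < R) (hy : R ≤ y) (hy2 : y ≤ q * R) :
    prof R q y = (q ^ 2 * R ^ 2 - y ^ 2) * (R ^ 2 / y ^ 2) := by
  unfold prof
  have h0 : 0 < y := lt_of_lt_of_le hR hy
  have h1 : y ^ 2 ≤ q ^ 2 * R ^ 2 := by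
    rw [← mul_pow]; gcongr
  rw [max_eq_left (by linarith)]
  split_ifs with h
  · have : y = R := le_antisymm h hy
    subst this
    rw [div_self (by positivity)]
  · rfl

theorem prof_high {R q y : ℝ} (hR : 0 < R) (hq : 1 < q) (hy2 : q * R ≤ y) :
    prof R q y = 0 := by
  unfold prof
  have h1 : q ^ 2 * R ^ 2 ≤ y ^ 2 := by
    rw [← mul_pow]; gcongr
  rw [max_eq_right (by linarith), zero_mul]

/-- The numerator of the constant: `q = √s`. -/
noncomputable def phi (n : ℕ) (q : ℝ) : ℝ :=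
  if n = 2 then 2 * q ^ 2 * log q + 1 / 2
  else 2 / ((n : ℝ) - 2) * (q ^ n - q ^ 2) + 2 / ((n : ℝ) + 2)

theorem integral_low (m : ℕ) {R q : ℝ} (hR : 0 < R) (hq : 1 < q) :
    ∫ y in (0 : ℝ)..R, y ^ (m + 1) * prof R q y =
      R ^ (m + 4) * (q ^ 2 / (m + 2) - 1 / (m + 4)) := by
  have h1 : ∫ y in (0 : ℝ)..R, y ^ (m + 1) * prof R q y =
      ∫ y in (0 : ℝ)..R, (q ^ 2 * R ^ 2 * y ^ (m + 1) - y ^ (m + 3)) := by
    refine intervalIntegral.integral_congr_ae ?_
    rw [uIoc_of_le hR.le]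
    refine Eventually.of_forall fun y hy => ?_
    rw [prof_low hq hy.1 hy.2]
    ring
  rw [h1, intervalIntegral.integral_sub, intervalIntegral.integral_const_mul, integral_pow,
    integral_pow]
  · push_cast
    have hm : (m : ℝ) + 1 + 1 ≠ 0 := by positivity
    have hm2 : (m : ℝ) + 2 ≠ 0 := by positivity
    have hm3 : (m : ℝ) + 3 + 1 ≠ 0 := by positivity
    have hm4 : (m : ℝ) + 4 ≠ 0 := by positivity
    have e1 : (m : ℝ) + 1 + 1 = m + 2 := by ring
    have e2 : (m : ℝ) + 3 + 1 = m + 4 := by ring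
    rw [e1, e2]
    field_simp
    ring
  · exact (Continuous.intervalIntegrable (by fun_prop) _ _)
  · exact (Continuous.intervalIntegrable (by fun_prop) _ _)

theorem integral_mid_two {R q : ℝ} (hR : 0 < R) (hq : 1 < q) :
    ∫ y in R..(q * R), y ^ 1 * prof R q y =
      R ^ 4 * (q ^ 2 * log q - (q ^ 2 - 1) / 2) := by
  have hRq : R ≤ q * R := by nlinarith
  have h1 : ∫ y in R..(q * R), y ^ 1 * prof R q y =
      ∫ y in R..(q * R), R ^ 2 * (q ^ 2 * R ^ 2 * y⁻¹ - y) := by
    refine intervalIntegral.integral_congr_ae ?_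
    rw [uIoc_of_le hRq]
    refine Eventually.of_forall fun y hy => ?_
    have hy0 : 0 < y := hR.trans hy.1
    rw [prof_mid hR hy.1.le hy.2]
    field_simp
  have h2 : ∀ y ∈ uIcc R (q * R), HasDerivAt
      (fun y => R ^ 2 * (q ^ 2 * R ^ 2 * log y - y ^ 2 / 2))
      (R ^ 2 * (q ^ 2 * R ^ 2 * y⁻¹ - y)) y := by
    intro y hy
    rw [uIcc_of_le hRq] at hy
    have hy0 : 0 < y := lt_of_lt_of_le hR hy.1
    have h3 := (Real.hasDerivAt_log hy0.ne').const_mul (q ^ 2 * R ^ 2)
    have h4 := ((hasDerivAt_id y).pow 2).div_const 2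
    have h6 := (h3.sub h4).const_mul (R ^ 2)
    refine h6.congr_deriv ?_
    simp only [id_eq, Nat.cast_ofNat]
    ring
  have h5 : IntervalIntegrable (fun y => R ^ 2 * (q ^ 2 * R ^ 2 * y⁻¹ - y)) volume R (q * R) := by
    refine ContinuousOn.intervalIntegrable ?_
    rw [uIcc_of_le hRq]
    refine continuousOn_const.mul ((continuousOn_const.mul ?_).sub continuousOn_id)
    refine continuousOn_id.inv₀ fun y hy => ?_
    exact (lt_of_lt_of_le hR hy.1).ne'
  rw [h1, intervalIntegral.integral_eq_sub_of_hasDerivAt h2 h5,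
    Real.log_mul (by positivity) (by positivity)]
  ring

theorem integral_mid (k : ℕ) {R q : ℝ} (hR : 0 < R) (hq : 1 < q) :
    ∫ y in R..(q * R), y ^ (k + 2) * prof R q y =
      R ^ (k + 5) * (q ^ 2 * (q ^ (k + 1) - 1) / (k + 1) - (q ^ (k + 3) - 1) / (k + 3)) := by
  have hRq : R ≤ q * R := by nlinarith
  have h1 : ∫ y in R..(q * R), y ^ (k + 2) * prof R q y =
      ∫ y in R..(q * R), (R ^ 2 * (q ^ 2 * R ^ 2) * y ^ k - R ^ 2 * y ^ (k + 2)) := by
    refine intervalIntegral.integral_congr_ae ?_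
    rw [uIoc_of_le hRq]
    refine Eventually.of_forall fun y hy => ?_
    have hy0 : 0 < y := hR.trans hy.1
    rw [prof_mid hR hy.1.le hy.2]
    field_simp
    ring
  rw [h1, intervalIntegral.integral_sub, intervalIntegral.integral_const_mul,
    intervalIntegral.integral_const_mul, integral_pow, integral_pow]
  · push_cast
    have hm : (k : ℝ) + 1 ≠ 0 := by positivity
    have hm3 : (k : ℝ) + 3 ≠ 0 := by positivity
    have e1 : (k : ℝ) + 2 + 1 = k + 3 := by ring
    rw [e1]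
    field_simp
    ring
  · exact (Continuous.intervalIntegrable (by fun_prop) _ _)
  · exact (Continuous.intervalIntegrable (by fun_prop) _ _)

theorem measurable_prof (R q : ℝ) : Measurable (prof R q) := by
  unfold prof
  refine Measurable.mul (by fun_prop) (Measurable.ite measurableSet_Iic (by fun_prop) ?_)
  fun_prop

theorem intervalIntegrable_low (m : ℕ) {R q : ℝ} (hR : 0 < R) (hq : 1 < q) :
    IntervalIntegrable (fun y => y ^ (m + 1) * prof R q y) volume 0 R := by
  have h : IntervalIntegrable (fun y => y ^ (m + 1) * (q ^ 2 * R ^ 2 - y ^ 2)) volume 0 R :=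
    Continuous.intervalIntegrable (by fun_prop) _ _
  refine h.congr ?_
  rw [uIoc_of_le hR.le]
  intro y hy
  simp only []
  rw [prof_low hq hy.1 hy.2]

theorem intervalIntegrable_mid (m : ℕ) {R q : ℝ} (hR : 0 < R) (hq : 1 < q) :
    IntervalIntegrable (fun y => y ^ (m + 1) * prof R q y) volume R (q * R) := by
  have hRq : R ≤ q * R := by nlinarith
  have h : IntervalIntegrable (fun y => y ^ (m + 1) * ((q ^ 2 * R ^ 2 - y ^ 2) * (R ^ 2 / y ^ 2)))
      volume R (q * R) := by
    refine ContinuousOn.intervalIntegrable ?_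
    rw [uIcc_of_le hRq]
    refine ContinuousOn.mul (by fun_prop) (ContinuousOn.mul (by fun_prop) ?_)
    refine ContinuousOn.div (by fun_prop) (by fun_prop) fun y hy => ?_
    have : 0 < y := lt_of_lt_of_le hR hy.1
    positivity
  refine h.congr ?_
  rw [uIoc_of_le hRq]
  intro y hy
  simp only []
  rw [prof_mid hR hy.1.le hy.2]

theorem integral_Ioi (m : ℕ) {R q : ℝ} (hR : 0 < R) (hq : 1 < q) :
    ((m + 2 : ℕ) : ℝ) * ∫ y in Ioi (0 : ℝ), y ^ (m + 1) * prof R q y =
      R ^ (m + 2 + 2) * phi (m + 2) q := by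
  have hRq : R ≤ q * R := by nlinarith
  have h0q : 0 ≤ q * R := hR.le.trans hRq
  have h1 : ∫ y in Ioi (0 : ℝ), y ^ (m + 1) * prof R q y =
      ∫ y in Ioc (0 : ℝ) (q * R), y ^ (m + 1) * prof R q y := by
    refine setIntegral_eq_of_subset_of_forall_sdiff_eq_zero measurableSet_Ioi
      Ioc_subset_Ioi_self ?_
    intro y hy
    have hy1 : 0 < y := hy.1
    have hy2 : q * R ≤ y := by
      by_contra hlt
      exact hy.2 ⟨hy1, (not_le.1 hlt).le⟩
    rw [prof_high hR hq hy2, mul_zero]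
  rw [h1, ← intervalIntegral.integral_of_le h0q,
    ← intervalIntegral.integral_add_adjacent_intervals (intervalIntegrable_low m hR hq)
      (intervalIntegrable_mid m hR hq), integral_low m hR hq]
  rcases m with _ | k
  · rw [integral_mid_two hR hq, phi]
    norm_num
    ring
  · rw [integral_mid k hR hq, phi]
    have hk : k + 1 + 2 ≠ 2 := by omega
    rw [if_neg hk]
    push_cast
    have h2 : (k : ℝ) + 1 + 2 - 2 = k + 1 := by ring
    have h3 : (k : ℝ) + 1 + 2 = k + 3 := by ring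
    have h4 : (k : ℝ) + 1 + 4 = k + 5 := by ring
    have h5 : (k : ℝ) + 3 + 2 = k + 5 := by ring
    rw [h2, h3, h4, h5]
    have p1 : (k : ℝ) + 1 ≠ 0 := by positivity
    have p3 : (k : ℝ) + 3 ≠ 0 := by positivity
    have p5 : (k : ℝ) + 5 ≠ 0 := by positivity
    field_simp
    ring

theorem integral_prof (n : ℕ) (hn : 2 ≤ n) {R q : ℝ} (hR : 0 < R) (hq : 1 < q) :
    ∫ w : EuclideanSpace ℝ (Fin n), prof R q ‖w‖ =
      volume.real (Metric.ball (0 : EuclideanSpace ℝ (Fin n)) 1) * (R ^ (n + 2) * phi n q) := by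
  obtain ⟨m, rfl⟩ : ∃ m, n = m + 2 := ⟨n - 2, by omega⟩
  rw [integral_fun_norm_addHaar]
  simp only [finrank_euclideanSpace, Fintype.card_fin, smul_eq_mul, nsmul_eq_mul]
  rw [← integral_Ioi m hR hq]
  have h : m + 2 - 1 = m + 1 := by omega
  rw [h]
  ring

theorem integrable_prof (n : ℕ) {R q : ℝ} (hR : 0 < R) (hq : 1 < q) :
    Integrable fun w : EuclideanSpace ℝ (Fin n) => prof R q ‖w‖ := by
  have h1 : Integrable ((Metric.closedBall (0 : EuclideanSpace ℝ (Fin n)) (q * R)).indicator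
      fun _ => q ^ 2 * R ^ 2) := by
    rw [integrable_indicator_iff measurableSet_closedBall]
    exact integrableOn_const (hs := measure_closedBall_lt_top.ne)
  refine h1.mono' ((measurable_prof R q).comp measurable_norm).aestronglyMeasurable ?_
  refine Eventually.of_forall fun w => ?_
  rw [Real.norm_eq_abs, abs_of_nonneg (prof_nonneg _ _ _)]
  by_cases hw : w ∈ Metric.closedBall (0 : EuclideanSpace ℝ (Fin n)) (q * R)
  · rw [indicator_of_mem hw]
    unfold prof
    have hle : (if ‖w‖ ≤ R then (1 : ℝ) else R ^ 2 / ‖w‖ ^ 2) ≤ 1 := by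
      split_ifs with h
      · exact le_refl _
      · have h3 : R < ‖w‖ := not_le.1 h
        have h4 : 0 < ‖w‖ := hR.trans h3
        rw [div_le_one (by positivity)]
        gcongr
    calc max (q ^ 2 * R ^ 2 - ‖w‖ ^ 2) 0 * (if ‖w‖ ≤ R then (1 : ℝ) else R ^ 2 / ‖w‖ ^ 2)
        ≤ max (q ^ 2 * R ^ 2 - ‖w‖ ^ 2) 0 * 1 :=
          mul_le_mul_of_nonneg_left hle (le_max_right _ _)
      _ ≤ q ^ 2 * R ^ 2 := by
          rw [mul_one]
          exact max_le (by nlinarith [sq_nonneg ‖w‖]) (by positivity)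
  · rw [indicator_of_notMem hw]
    have h2 : q * R ≤ ‖w‖ := by
      rw [mem_closedBall_zero_iff, not_le] at hw
      exact hw.le
    rw [prof_high hR hq h2]

end Pool.Agent.W_MP_1ab439_an
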