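import Pool.Agent.W_MP_1ab439_an.Pointwise
import Pool.Agent.W_MP_1ab439_an.Radial

set_option autoImplicit false
set_option maxSynthPendingDepth 3

open MeasureTheory SchwartzMap FourierTransform Real Filter Topology
open scoped SchwartzMap LineDeriv ENNReal

namespace Pool.Agent.W_MP_1ab439_an

variable {n : ℕ} {Ω : Set (Eu n)} {lam : ℝ} {N : ℕ}

theorem Sys.weighted_le (S : Sys Ω lam N) (ho : IsOpen Ω) (hb : Bornology.IsBounded Ω)
    (hl : 0 < lam) {R q : ℝ} (hR0 : 0 < R) (hR : R ^ 2 = lam / (4 * π ^ 2)) (w : Eu n) :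
    (q ^ 2 * R ^ 2 - ‖w‖ ^ 2) * S.rho w ≤ prof R q ‖w‖ * (volume Ω).toReal := by
  have h0 := S.rho_nonneg w
  have h1 := S.rho_le ho hb w
  have h2 := S.normsq_rho_le ho hb hl w
  rw [← hR] at h2
  have hv : 0 ≤ (volume Ω).toReal := ENNReal.toReal_nonneg
  have h3 : (q ^ 2 * R ^ 2 - ‖w‖ ^ 2) * S.rho w ≤ max (q ^ 2 * R ^ 2 - ‖w‖ ^ 2) 0 * S.rho w :=
    mul_le_mul_of_nonneg_right (le_max_left _ _) h0
  refine h3.trans ?_
  unfold prof
  rw [mul_assoc]
  refine mul_le_mul_of_nonneg_left ?_ (le_max_right _ _)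
  split_ifs with h
  · rw [one_mul]
    exact h1
  · have hw : 0 < ‖w‖ := hR0.trans (not_le.1 h)
    rw [div_mul_eq_mul_div, le_div_iff₀ (by positivity)]
    linarith

theorem Sys.count_le (S : Sys Ω lam N) (hn : 2 ≤ n) (ho : IsOpen Ω)
    (hb : Bornology.IsBounded Ω) (hl : 0 < lam) {R q : ℝ} (hR0 : 0 < R)
    (hR : R ^ 2 = lam / (4 * π ^ 2)) (hq : 1 < q) :
    (N : ℝ) ≤ phi n q / (q ^ 2 - 1) *
      (volume.real (Metric.ball (0 : Eu n) 1) * R ^ n * (volume Ω).toReal) := by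
  have h1 : ∫ w, (q ^ 2 * R ^ 2 - ‖w‖ ^ 2) * S.rho w ≤
      ∫ w : Eu n, prof R q ‖w‖ * (volume Ω).toReal := by
    refine integral_mono ?_ ((integrable_prof n hR0 hq).mul_const _) fun w =>
      S.weighted_le ho hb hl hR0 hR w
    have h := (S.rho_integrable.const_mul (q ^ 2 * R ^ 2)).sub S.normsq_rho_integrable
    refine h.congr (Eventually.of_forall fun w => ?_)
    simp only [Pi.sub_apply]
    ring
  have h2 : ∫ w, (q ^ 2 * R ^ 2 - ‖w‖ ^ 2) * S.rho w =
      q ^ 2 * R ^ 2 * N - ∫ w, ‖w‖ ^ 2 * S.rho w := by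
    rw [← S.integral_rho, ← integral_const_mul,
      ← integral_sub (S.rho_integrable.const_mul _) S.normsq_rho_integrable]
    congr 1
    funext w
    ring
  have h3 := S.integral_normsq_rho
  rw [← hR] at h3
  rw [integral_mul_const, integral_prof n hn hR0 hq] at h1
  have hR2 : 0 < R ^ 2 := by positivity
  have hq2 : 0 < q ^ 2 - 1 := by nlinarith
  have h4 : R ^ 2 * ((q ^ 2 - 1) * N) ≤ R ^ 2 * (phi n q *
      (volume.real (Metric.ball (0 : Eu n) 1) * R ^ n * (volume Ω).toReal)) := by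
    have h5 : q ^ 2 * R ^ 2 * N - R ^ 2 * N ≤ volume.real (Metric.ball (0 : Eu n) 1) *
        (R ^ (n + 2) * phi n q) * (volume Ω).toReal := by
      linarith
    calc R ^ 2 * ((q ^ 2 - 1) * N) = q ^ 2 * R ^ 2 * N - R ^ 2 * N := by ring
      _ ≤ _ := h5
      _ = _ := by ring
  have h6 := le_of_mul_le_mul_left h4 hR2
  rw [div_mul_eq_mul_div, le_div_iff₀ hq2]
  linarith

theorem weyl_eq (hn : 1 ≤ n) (hl : 0 < lam) :
    volume.real (Metric.ball (0 : Eu n) 1) * (√lam / (2 * π)) ^ n =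
      (4 * π) ^ (-(n : ℝ) / 2) / Gamma (1 + (n : ℝ) / 2) * lam ^ ((n : ℝ) / 2) := by
  haveI : Nonempty (Fin n) := ⟨⟨0, by omega⟩⟩
  have hpi := pi_pos
  have hG : 0 < Gamma ((n : ℝ) / 2 + 1) := Gamma_pos_of_pos (by positivity)
  rw [Measure.real, EuclideanSpace.volume_ball, ENNReal.toReal_mul, ENNReal.toReal_pow,
    ENNReal.toReal_ofReal (by norm_num), ENNReal.toReal_ofReal (by positivity)]
  simp only [Fintype.card_fin, one_pow, one_mul]
  have e1 : √lam ^ n = lam ^ ((n : ℝ) / 2) := by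
    rw [Real.sqrt_eq_rpow, ← Real.rpow_natCast, ← Real.rpow_mul hl.le]
    congr 1
    ring
  have e2 : √π ^ n / (2 * π) ^ n = (4 * π) ^ (-(n : ℝ) / 2) := by
    have h1 : (4 * π) ^ (-(n : ℝ) / 2) = ((√(4 * π)) ^ n)⁻¹ := by
      rw [Real.sqrt_eq_rpow, ← Real.rpow_natCast, ← Real.rpow_mul (by positivity),
        ← Real.rpow_neg (by positivity)]
      congr 1
      ring
    rw [h1, ← div_pow, ← inv_pow]
    congr 1
    have h2 : √(4 * π) = 2 * √π := by
      rw [Real.sqrt_mul (by norm_num), show (4 : ℝ) = 2 ^ 2 by norm_num,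
        Real.sqrt_sq (by norm_num)]
    rw [h2]
    have h3 : √π * √π = π := Real.mul_self_sqrt hpi.le
    have h4 : 0 < √π := Real.sqrt_pos.2 hpi
    rw [inv_eq_one_div, div_eq_div_iff (by positivity) (by positivity)]
    linear_combination 2 * h3
  rw [div_pow, e1]
  have h5 : Gamma ((n : ℝ) / 2 + 1) = Gamma (1 + (n : ℝ) / 2) := by rw [add_comm]
  rw [h5] at hG ⊢
  rw [← e2]
  field_simp

end Pool.Agent.W_MP_1ab439_an
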