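import Pool.Agent.W_MP_1ab439_an.Energy

set_option autoImplicit false
set_option maxSynthPendingDepth 3

open MeasureTheory SchwartzMap FourierTransform Real Filter Topology
open scoped SchwartzMap LineDeriv ENNReal

namespace Pool.Agent.W_MP_1ab439_an

variable {n : ℕ}

/-- Smooth compactly supported real functions. -/
def Good (u : Eu n → ℝ) : Prop := ContDiff ℝ (⊤ : ℕ∞) u ∧ HasCompactSupport u

theorem Good.integrable_mul {u v : Eu n → ℝ} (hu : Good u) (hv : Good v) :
    Integrable (fun x => u x * v x) :=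
  (hu.1.continuous.mul hv.1.continuous).integrable_of_hasCompactSupport
    (hu.2.mul_right)

/-- The `L²` bilinear form on a space of good functions. -/
noncomputable def bform (V : Submodule ℝ (Eu n → ℝ)) (hV : ∀ u ∈ V, Good u) :
    LinearMap.BilinForm ℝ V :=
  LinearMap.mk₂ ℝ (fun u v : V => ∫ x, u.1 x * v.1 x)
    (fun u u' v => by
      have h1 := (hV u.1 u.2).integrable_mul (hV v.1 v.2)
      have h2 := (hV u'.1 u'.2).integrable_mul (hV v.1 v.2)
      rw [← integral_add h1 h2]
      congr 1; funext x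
      simp [add_mul])
    (fun c u v => by
      rw [smul_eq_mul, ← integral_const_mul]
      congr 1; funext x
      simp [mul_assoc])
    (fun u v v' => by
      have h1 := (hV u.1 u.2).integrable_mul (hV v.1 v.2)
      have h2 := (hV u.1 u.2).integrable_mul (hV v'.1 v'.2)
      rw [← integral_add h1 h2]
      congr 1; funext x
      simp [mul_add])
    (fun c u v => by
      rw [smul_eq_mul, ← integral_const_mul]
      congr 1; funext x
      simp [mul_left_comm])

theorem bform_apply (V : Submodule ℝ (Eu n → ℝ)) (hV : ∀ u ∈ V, Good u) (u v : V) :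
    bform V hV u v = ∫ x, u.1 x * v.1 x := rfl

theorem exists_orthonormal (V : Submodule ℝ (Eu n → ℝ)) [FiniteDimensional ℝ V]
    (hV : ∀ u ∈ V, Good u) (hpos : ∀ u ∈ V, u ≠ 0 → 0 < ∫ x, (u x) ^ 2) :
    ∃ u : Fin (Module.finrank ℝ V) → (Eu n → ℝ), (∀ i, u i ∈ V) ∧
      ∀ i j, ∫ x, u i x * u j x = if i = j then 1 else 0 := by
  have hs : LinearMap.IsSymm (bform V hV) := by
    refine ⟨fun u v => ?_⟩
    simp only [bform_apply, RingHom.id_apply]
    congr 1; funext x
    exact mul_comm _ _
  obtain ⟨v, hv⟩ := LinearMap.BilinForm.exists_orthogonal_basis (K := ℝ) (V := V) hs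
  have hp : ∀ i, 0 < ∫ x, (v i).1 x * (v i).1 x := by
    intro i
    have h := hpos (v i).1 (v i).2 (fun h => v.ne_zero i (Subtype.ext h))
    simpa [pow_two] using h
  refine ⟨fun i => (√(∫ x, (v i).1 x * (v i).1 x))⁻¹ • (v i).1,
    fun i => V.smul_mem _ (v i).2, fun i j => ?_⟩
  have h1 : ∫ x, ((√(∫ x, (v i).1 x * (v i).1 x))⁻¹ • (v i).1) x *
      ((√(∫ x, (v j).1 x * (v j).1 x))⁻¹ • (v j).1) x =
      (√(∫ x, (v i).1 x * (v i).1 x))⁻¹ * (√(∫ x, (v j).1 x * (v j).1 x))⁻¹ *
        ∫ x, (v i).1 x * (v j).1 x := by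
    rw [← integral_const_mul]
    congr 1; funext x
    simp only [Pi.smul_apply, smul_eq_mul]
    ring
  rw [h1]
  split_ifs with hij
  · subst hij
    rw [← mul_inv, Real.mul_self_sqrt (hp i).le]
    exact inv_mul_cancel₀ (hp i).ne'
  · have h2 := hv hij
    simp only [bform_apply] at h2
    have h3 : ∫ x, (v i).1 x * (v j).1 x = 0 := h2
    rw [h3, mul_zero]

end Pool.Agent.W_MP_1ab439_an
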