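import Pool.Agent.W_MP_1ab439_an.Rho

set_option autoImplicit false
set_option maxSynthPendingDepth 3

open MeasureTheory SchwartzMap FourierTransform Real Filter Topology
open scoped SchwartzMap LineDeriv ENNReal

namespace Pool.Agent.W_MP_1ab439_an

variable {n : ℕ}

/-- Linear combination of functions. -/
def lin {N : ℕ} (u : Fin N → Eu n → ℝ) (a : Fin N → ℝ) : Eu n → ℝ := fun x => ∑ i, a i * u i x

/-- Orthonormal system spanning a space on which the Dirichlet energy is at most `lam`. -/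
structure Sys (Ω : Set (Eu n)) (lam : ℝ) (N : ℕ) where
  u : Fin N → Eu n → ℝ
  good : ∀ i, Good (u i)
  orth : ∀ i j, ∫ x, u i x * u j x = if i = j then 1 else 0
  supp : ∀ i, tsupport (u i) ⊆ Ω
  energy : ∀ a : Fin N → ℝ, ∫ x, ‖fderiv ℝ (lin u a) x‖ ^ 2 ≤ lam * ∑ i, a i ^ 2

variable {Ω : Set (Eu n)} {lam : ℝ} {N : ℕ}

theorem good_sum {ι : Type*} (s : Finset ι) (f : ι → Eu n → ℝ) (hf : ∀ i, Good (f i)) :
    Good (fun x => ∑ i ∈ s, f i x) := by
  classical
  induction s using Finset.induction_on with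
  | empty =>
    simp only [Finset.sum_empty]
    exact ⟨contDiff_const, HasCompactSupport.zero⟩
  | insert i s hi ih =>
    simp only [Finset.sum_insert hi]
    exact ⟨(hf i).1.add ih.1, (hf i).2.add ih.2⟩

theorem good_const_mul (c : ℝ) {f : Eu n → ℝ} (hf : Good f) : Good (fun x => c * f x) :=
  ⟨contDiff_const.mul hf.1, hf.2.mul_left⟩

theorem Sys.good_lin (S : Sys Ω lam N) (a : Fin N → ℝ) : Good (lin S.u a) :=
  good_sum _ _ fun i => good_const_mul _ (S.good i)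

theorem Sys.zero_off (S : Sys Ω lam N) (a : Fin N → ℝ) (x : Eu n) (hx : x ∉ Ω) :
    lin S.u a x = 0 ∧ fderiv ℝ (lin S.u a) x = 0 := by
  have h1 : ∀ i, x ∉ tsupport (S.u i) := fun i h => hx (S.supp i h)
  have h2 : ∀ i, S.u i =ᶠ[𝓝 x] 0 := fun i => notMem_tsupport_iff_eventuallyEq.1 (h1 i)
  have h3 : ∀ᶠ y in 𝓝 x, ∀ i, S.u i y = 0 := by
    rw [Filter.eventually_all]
    intro i
    exact h2 i
  have h4 : lin S.u a =ᶠ[𝓝 x] fun _ => 0 := by
    filter_upwards [h3] with y hy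
    simp [lin, hy]
  refine ⟨h4.self_of_nhds, ?_⟩
  rw [h4.fderiv_eq]
  simp

theorem integral_lin_sq_of {N : ℕ} (u : Fin N → Eu n → ℝ) (hu : ∀ i, Good (u i))
    (horth : ∀ i j, ∫ x, u i x * u j x = if i = j then 1 else 0) (a : Fin N → ℝ) :
    ∫ x, (lin u a x) ^ 2 = ∑ i, a i ^ 2 := by
  have h1 : (fun x => (lin u a x) ^ 2) =
      fun x => ∑ i, ∑ j, (a i * a j) * (u i x * u j x) := by
    funext x
    rw [lin, pow_two, Finset.sum_mul_sum]
    refine Finset.sum_congr rfl fun i _ => Finset.sum_congr rfl fun j _ => ?_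
    ring
  rw [h1, integral_finsetSum]
  · refine Finset.sum_congr rfl fun i _ => ?_
    rw [integral_finsetSum]
    · simp only [integral_const_mul, horth]
      simp [pow_two]
    · intro j _
      exact ((hu i).integrable_mul (hu j)).const_mul _
  · intro i _
    refine integrable_finsetSum _ fun j _ => ?_
    exact ((hu i).integrable_mul (hu j)).const_mul _

theorem Sys.integral_lin_sq (S : Sys Ω lam N) (a : Fin N → ℝ) :
    ∫ x, (lin S.u a x) ^ 2 = ∑ i, a i ^ 2 := integral_lin_sq_of S.u S.good S.orth a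

/-- The density `ρ(w) = Σ |û_i(w)|²`. -/
noncomputable def Sys.rho (S : Sys Ω lam N) (w : Eu n) : ℝ :=
  ∑ i, ‖𝓕 (toS (S.u i) (S.good i)) w‖ ^ 2

theorem Sys.rho_nonneg (S : Sys Ω lam N) (w : Eu n) : 0 ≤ S.rho w :=
  Finset.sum_nonneg fun _ _ => by positivity

/-- coefficients -/
noncomputable def Sys.re (S : Sys Ω lam N) (w : Eu n) (i : Fin N) : ℝ :=
  (𝓕 (toS (S.u i) (S.good i)) w).re

noncomputable def Sys.im (S : Sys Ω lam N) (w : Eu n) (i : Fin N) : ℝ :=
  - (𝓕 (toS (S.u i) (S.good i)) w).im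

theorem Sys.rho_eq (S : Sys Ω lam N) (w : Eu n) :
    S.rho w = ∑ i, S.re w i ^ 2 + ∑ i, S.im w i ^ 2 := by
  rw [Sys.rho, ← Finset.sum_add_distrib]
  refine Finset.sum_congr rfl fun i _ => ?_
  rw [Sys.re, Sys.im, ← Complex.normSq_eq_norm_sq, Complex.normSq_apply]
  ring

/-- The (conjugate) projection of the plane wave onto the system. -/
noncomputable def Sys.g (S : Sys Ω lam N) (w : Eu n) : 𝓢(Eu n, ℂ) :=
  toS (lin S.u (S.re w)) (S.good_lin _) + Complex.I • toS (lin S.u (S.im w)) (S.good_lin _)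

theorem Sys.g_eq_sum (S : Sys Ω lam N) (w : Eu n) :
    S.g w = ∑ i, (starRingEnd ℂ (𝓕 (toS (S.u i) (S.good i)) w)) • toS (S.u i) (S.good i) := by
  ext x
  simp only [Sys.g, add_apply, smul_apply, sum_apply, toS_apply, smul_eq_mul, lin]
  push_cast
  rw [Finset.mul_sum, ← Finset.sum_add_distrib]
  refine Finset.sum_congr rfl fun i _ => ?_
  have h : starRingEnd ℂ (𝓕 (toS (S.u i) (S.good i)) w) =
      (S.re w i : ℂ) + Complex.I * (S.im w i : ℂ) := by
    apply Complex.ext <;> simp [Sys.re, Sys.im]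
  rw [h]
  ring

theorem Sys.fourier_g (S : Sys Ω lam N) (w : Eu n) : 𝓕 (S.g w) w = (S.rho w : ℂ) := by
  have h1 : 𝓕 (S.g w) = ∑ i, (starRingEnd ℂ (𝓕 (toS (S.u i) (S.good i)) w)) •
      𝓕 (toS (S.u i) (S.good i)) := by
    rw [S.g_eq_sum w, FourierTransform.fourier_sum]
    refine Finset.sum_congr rfl fun i _ => ?_
    rw [FourierTransform.fourier_smul]
  rw [h1]
  simp only [sum_apply, smul_apply, smul_eq_mul, Sys.rho]
  push_cast
  refine Finset.sum_congr rfl fun i _ => ?_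
  rw [← Complex.conj_mul']

theorem norm_sq_re_im (a b : ℝ) : ‖(a : ℂ) + Complex.I * (b : ℂ)‖ ^ 2 = a ^ 2 + b ^ 2 := by
  rw [← Complex.normSq_eq_norm_sq, Complex.normSq_apply]
  simp
  ring

theorem Sys.norm_g_sq (S : Sys Ω lam N) (w x : Eu n) :
    ‖S.g w x‖ ^ 2 = (lin S.u (S.re w) x) ^ 2 + (lin S.u (S.im w) x) ^ 2 := by
  simp only [Sys.g, add_apply, smul_apply, toS_apply, smul_eq_mul]
  exact norm_sq_re_im _ _

theorem Sys.integral_g_sq (S : Sys Ω lam N) (w : Eu n) : ∫ x, ‖S.g w x‖ ^ 2 = S.rho w := by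
  simp only [S.norm_g_sq]
  rw [integral_add, S.integral_lin_sq, S.integral_lin_sq, S.rho_eq]
  · simpa [pow_two] using (S.good_lin (S.re w)).integrable_mul (S.good_lin (S.re w))
  · simpa [pow_two] using (S.good_lin (S.im w)).integrable_mul (S.good_lin (S.im w))

theorem Sys.norm_deriv_g_sq (S : Sys Ω lam N) (w x : Eu n) :
    ‖∂_{w} (S.g w) x‖ ^ 2 =
      (fderiv ℝ (lin S.u (S.re w)) x w) ^ 2 + (fderiv ℝ (lin S.u (S.im w)) x w) ^ 2 := by
  have h : ∂_{w} (S.g w) x = ((fderiv ℝ (lin S.u (S.re w)) x w : ℝ) : ℂ) +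
      Complex.I * ((fderiv ℝ (lin S.u (S.im w)) x w : ℝ) : ℂ) := by
    rw [Sys.g, LineDeriv.lineDerivOp_add, LineDeriv.lineDerivOp_smul]
    simp only [add_apply, smul_apply, smul_eq_mul, lineDerivOp_apply_eq_fderiv, fderiv_toS]
  rw [h]
  exact norm_sq_re_im _ _

theorem integral_norm_le_of_off {Ω : Set (Eu n)} (ho : IsOpen Ω) (hb : Bornology.IsBounded Ω)
    (p : 𝓢(Eu n, ℂ)) (hp : ∀ x, x ∉ Ω → p x = 0) (t : ℝ) :
    2 * t * ∫ x, ‖p x‖ ≤ (∫ x, ‖p x‖ ^ 2) + t ^ 2 * (volume Ω).toReal := by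
  have h1 : ∫ x, (‖p x‖ ^ 2 + Ω.indicator (fun _ => t ^ 2) x) =
      (∫ x, ‖p x‖ ^ 2) + t ^ 2 * (volume Ω).toReal := by
    rw [integral_add (integrable_norm_sq p), integral_indicator_const _ ho.measurableSet]
    · rw [smul_eq_mul, Measure.real]
      ring
    · rw [integrable_indicator_iff ho.measurableSet]
      exact integrableOn_const (hs := hb.measure_lt_top.ne)
  rw [← h1, ← integral_const_mul]
  refine integral_mono (p.integrable.norm.const_mul _) ?_ ?_
  · refine (integrable_norm_sq p).add ?_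
    rw [integrable_indicator_iff ho.measurableSet]
    exact integrableOn_const (hs := hb.measure_lt_top.ne)
  · intro x
    by_cases hx : x ∈ Ω
    · simp only [Set.indicator_of_mem hx]
      nlinarith [sq_nonneg (‖p x‖ - t)]
    · simp [Set.indicator_of_notMem hx, hp x hx]

theorem norm_fourier_le (p : 𝓢(Eu n, ℂ)) (w : Eu n) : ‖𝓕 p w‖ ≤ ∫ x, ‖p x‖ := by
  rw [fourier_coe, Real.fourier_eq]
  refine (norm_integral_le_integral_norm _).trans (le_of_eq ?_)
  congr 1
  funext x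
  simp [Circle.norm_smul]

theorem Sys.g_off (S : Sys Ω lam N) (w x : Eu n) (hx : x ∉ Ω) : S.g w x = 0 := by
  have h := S.norm_g_sq w x
  rw [(S.zero_off _ x hx).1, (S.zero_off _ x hx).1] at h
  simpa using h

theorem Sys.deriv_g_off (S : Sys Ω lam N) (w x : Eu n) (hx : x ∉ Ω) : ∂_{w} (S.g w) x = 0 := by
  have h := S.norm_deriv_g_sq w x
  rw [(S.zero_off _ x hx).2, (S.zero_off _ x hx).2] at h
  simpa using h

/-- First pointwise bound (Li–Yau). -/
theorem Sys.rho_le (S : Sys Ω lam N) (ho : IsOpen Ω) (hb : Bornology.IsBounded Ω) (w : Eu n) :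
    S.rho w ≤ (volume Ω).toReal := by
  have h1 : S.rho w ≤ ∫ x, ‖S.g w x‖ := by
    have h := norm_fourier_le (S.g w) w
    rw [S.fourier_g, Complex.norm_real, Real.norm_eq_abs, abs_of_nonneg (S.rho_nonneg w)] at h
    exact h
  have h2 := integral_norm_le_of_off ho hb (S.g w) (S.g_off w) 1
  rw [S.integral_g_sq] at h2
  linarith

theorem Sys.integral_deriv_g_sq (S : Sys Ω lam N) (w : Eu n) :
    ∫ x, ‖∂_{w} (S.g w) x‖ ^ 2 ≤ ‖w‖ ^ 2 * (lam * S.rho w) := by
  have hi1 := (S.good_lin (S.re w)).integrable_fderiv_sq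
  have hi2 := (S.good_lin (S.im w)).integrable_fderiv_sq
  calc ∫ x, ‖∂_{w} (S.g w) x‖ ^ 2
      ≤ ∫ x, (‖fderiv ℝ (lin S.u (S.re w)) x‖ ^ 2 * ‖w‖ ^ 2 +
          ‖fderiv ℝ (lin S.u (S.im w)) x‖ ^ 2 * ‖w‖ ^ 2) := by
        refine integral_mono (integrable_norm_sq _) ((hi1.mul_const _).add (hi2.mul_const _)) ?_
        intro x
        simp only [S.norm_deriv_g_sq]
        have h : ∀ L : Eu n →L[ℝ] ℝ, (L w) ^ 2 ≤ ‖L‖ ^ 2 * ‖w‖ ^ 2 := by
          intro L
          rw [← mul_pow, ← sq_abs, ← Real.norm_eq_abs]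
          exact pow_le_pow_left₀ (norm_nonneg _) (L.le_opNorm w) 2
        exact add_le_add (h _) (h _)
    _ = ‖w‖ ^ 2 * ((∫ x, ‖fderiv ℝ (lin S.u (S.re w)) x‖ ^ 2) +
          ∫ x, ‖fderiv ℝ (lin S.u (S.im w)) x‖ ^ 2) := by
        rw [integral_add (hi1.mul_const _) (hi2.mul_const _), integral_mul_const,
          integral_mul_const]
        ring
    _ ≤ ‖w‖ ^ 2 * (lam * S.rho w) := by
        refine mul_le_mul_of_nonneg_left ?_ (by positivity)
        rw [S.rho_eq, mul_add]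
        exact add_le_add (S.energy _) (S.energy _)

/-- Second pointwise bound. -/
theorem Sys.normsq_rho_le (S : Sys Ω lam N) (ho : IsOpen Ω) (hb : Bornology.IsBounded Ω)
    (hl : 0 < lam) (w : Eu n) :
    ‖w‖ ^ 2 * S.rho w ≤ lam / (4 * π ^ 2) * (volume Ω).toReal := by
  have h1 : 2 * π * ‖w‖ ^ 2 * S.rho w ≤ ∫ x, ‖∂_{w} (S.g w) x‖ := by
    have h := norm_fourier_le (∂_{w} (S.g w)) w
    rw [fourier_deriv_apply, S.fourier_g, real_inner_self_eq_norm_sq] at h
    simp only [norm_mul, Complex.norm_real, Complex.norm_ofNat, Complex.norm_I, mul_one,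
      Real.norm_eq_abs, abs_of_nonneg (S.rho_nonneg w), abs_of_pos pi_pos] at h
    rw [abs_of_nonneg (by positivity)] at h
    linarith
  have h2 := integral_norm_le_of_off ho hb (∂_{w} (S.g w)) (S.deriv_g_off w)
    (lam / (2 * π))
  have h3 := S.integral_deriv_g_sq w
  have hpi := pi_pos
  have h4 : 2 * (lam / (2 * π)) * (2 * π * ‖w‖ ^ 2 * S.rho w) ≤
      ‖w‖ ^ 2 * (lam * S.rho w) + (lam / (2 * π)) ^ 2 * (volume Ω).toReal := by
    have h5 : 2 * (lam / (2 * π)) * (2 * π * ‖w‖ ^ 2 * S.rho w) ≤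
      2 * (lam / (2 * π)) * ∫ x, ‖∂_{w} (S.g w) x‖ :=
      mul_le_mul_of_nonneg_left h1 (by positivity)
    linarith
  have h6 : 2 * (lam / (2 * π)) * (2 * π * ‖w‖ ^ 2 * S.rho w) =
      2 * (lam * (‖w‖ ^ 2 * S.rho w)) := by
    field_simp
  have h7 : (lam / (2 * π)) ^ 2 * (volume Ω).toReal =
      lam * (lam / (4 * π ^ 2) * (volume Ω).toReal) := by
    field_simp
    ring
  rw [h6, h7] at h4
  have h8 : lam * (‖w‖ ^ 2 * S.rho w) ≤ lam * (lam / (4 * π ^ 2) * (volume Ω).toReal) := by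
    linarith
  exact le_of_mul_le_mul_left h8 hl

theorem Sys.rho_integrable (S : Sys Ω lam N) : Integrable S.rho :=
  integrable_finsetSum _ fun i _ => integrable_norm_sq (𝓕 (toS (S.u i) (S.good i)))

theorem Sys.integral_rho (S : Sys Ω lam N) : ∫ w, S.rho w = N := by
  simp only [Sys.rho]
  rw [integral_finsetSum _ fun i _ => integrable_norm_sq (𝓕 (toS (S.u i) (S.good i)))]
  have h : ∀ i, ∫ w : Eu n, ‖𝓕 (toS (S.u i) (S.good i)) w‖ ^ 2 = 1 := by
    intro i
    rw [plancherel]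
    have := S.orth i i
    simpa [pow_two] using this
  simp [h]

theorem Sys.normsq_rho_integrable (S : Sys Ω lam N) :
    Integrable fun w : Eu n => ‖w‖ ^ 2 * S.rho w := by
  simp only [Sys.rho, Finset.mul_sum]
  exact integrable_finsetSum _ fun i _ => integrable_normsq_mul (toS (S.u i) (S.good i))

theorem Sys.integral_normsq_rho (S : Sys Ω lam N) :
    ∫ w, ‖w‖ ^ 2 * S.rho w ≤ lam / (4 * π ^ 2) * N := by
  simp only [Sys.rho, Finset.mul_sum]
  rw [integral_finsetSum _ fun i _ => integrable_normsq_mul (toS (S.u i) (S.good i))]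
  have h : ∀ i, ∫ w : Eu n, ‖w‖ ^ 2 * ‖𝓕 (toS (S.u i) (S.good i)) w‖ ^ 2 ≤
      lam / (4 * π ^ 2) := by
    intro i
    have h1 := energy_fourier (S.u i) (S.good i)
    have h2 := S.energy (fun j => if j = i then 1 else 0)
    have h3 : lin S.u (fun j => if j = i then 1 else 0) = S.u i := by
      funext x
      simp [lin]
    rw [h3] at h2
    simp at h2
    rw [← h1] at h2
    rw [le_div_iff₀ (by positivity)]
    linarith
  calc ∑ i, ∫ w : Eu n, ‖w‖ ^ 2 * ‖𝓕 (toS (S.u i) (S.good i)) w‖ ^ 2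
      ≤ ∑ _i : Fin N, lam / (4 * π ^ 2) := Finset.sum_le_sum fun i _ => h i
    _ = _ := by simp; ring

end Pool.Agent.W_MP_1ab439_an
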