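import Pool.Agent.W_MP_1ab439_an.Ortho

set_option autoImplicit false
set_option maxSynthPendingDepth 3

open MeasureTheory SchwartzMap FourierTransform Real Filter Topology
open scoped SchwartzMap LineDeriv ENNReal

namespace Pool.Agent.W_MP_1ab439_an

variable {n : ℕ}

/-- Complexified Schwartz function of a good real function. -/
noncomputable def toS (u : Eu n → ℝ) (hu : Good u) : 𝓢(Eu n, ℂ) :=
  HasCompactSupport.toSchwartzMap (f := fun x => ((u x : ℝ) : ℂ))
    (hu.2.comp_left (g := ((↑) : ℝ → ℂ)) (by simp)) (Complex.ofRealCLM.contDiff.comp hu.1)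

theorem toS_apply (u : Eu n → ℝ) (hu : Good u) (x : Eu n) : toS u hu x = (u x : ℂ) := rfl

theorem Good.differentiable {u : Eu n → ℝ} (hu : Good u) : Differentiable ℝ u :=
  hu.1.differentiable (by simp)

theorem fderiv_toS (u : Eu n → ℝ) (hu : Good u) (x m : Eu n) :
    fderiv ℝ (toS u hu) x m = ((fderiv ℝ u x m : ℝ) : ℂ) := by
  have h : HasFDerivAt (toS u hu) (Complex.ofRealCLM.comp (fderiv ℝ u x)) x :=
    Complex.ofRealCLM.hasFDerivAt.comp x (hu.differentiable x).hasFDerivAt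
  rw [h.fderiv]
  rfl

/-- Dual norm on Euclidean space. -/
theorem norm_sq_dual (L : Eu n →L[ℝ] ℝ) :
    ‖L‖ ^ 2 = ∑ k, (L (EuclideanSpace.single k 1)) ^ 2 := by
  have h1 : ‖L‖ = ‖(InnerProductSpace.toDual ℝ (Eu n)).symm L‖ := by simp
  rw [h1, EuclideanSpace.real_norm_sq_eq]
  refine Finset.sum_congr rfl fun k _ => ?_
  congr 1
  have h2 : inner ℝ ((InnerProductSpace.toDual ℝ (Eu n)).symm L) (EuclideanSpace.single k 1) =
      L (EuclideanSpace.single k 1) := InnerProductSpace.toDual_symm_apply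
  rw [← h2, EuclideanSpace.inner_single_right]
  simp

theorem Good.fderiv_continuous {u : Eu n → ℝ} (hu : Good u) : Continuous (fderiv ℝ u) :=
  hu.1.continuous_fderiv (by simp)

theorem Good.integrable_fderiv_sq {u : Eu n → ℝ} (hu : Good u) :
    Integrable (fun x => ‖fderiv ℝ u x‖ ^ 2) := by
  refine (hu.fderiv_continuous.norm.pow 2).integrable_of_hasCompactSupport ?_
  have h := hu.2.fderiv (𝕜 := ℝ)
  refine h.mono ?_
  intro x hx
  simp only [Function.mem_support] at hx ⊢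
  intro h0
  apply hx
  simp [h0]

theorem energy_toS (u : Eu n → ℝ) (hu : Good u) :
    energy (toS u hu) = ∫ x, ‖fderiv ℝ u x‖ ^ 2 := by
  have h1 : (fun x => ‖fderiv ℝ u x‖ ^ 2) = fun x => ∑ k : Fin n,
      ‖fderiv ℝ (toS u hu) x (EuclideanSpace.single k 1)‖ ^ 2 := by
    funext x
    rw [norm_sq_dual]
    refine Finset.sum_congr rfl fun k _ => ?_
    rw [fderiv_toS, Complex.norm_real, Real.norm_eq_abs, sq_abs]
  rw [energy, h1, integral_finsetSum]
  intro k _
  have h2 := integrable_norm_sq (∂_{(EuclideanSpace.single k 1 : Eu n)} (toS u hu))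
  refine h2.congr (Eventually.of_forall fun x => ?_)
  simp only [lineDerivOp_apply_eq_fderiv]

theorem energy_fourier (u : Eu n → ℝ) (hu : Good u) :
    4 * π ^ 2 * ∫ w : Eu n, ‖w‖ ^ 2 * ‖𝓕 (toS u hu) w‖ ^ 2 = ∫ x, ‖fderiv ℝ u x‖ ^ 2 := by
  rw [← energy_eq, energy_toS]

theorem plancherel (u : Eu n → ℝ) (hu : Good u) :
    ∫ w : Eu n, ‖𝓕 (toS u hu) w‖ ^ 2 = ∫ x, (u x) ^ 2 := by
  rw [integral_norm_sq_fourier]
  congr 1
  funext x
  rw [toS_apply, Complex.norm_real, Real.norm_eq_abs, sq_abs]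

end Pool.Agent.W_MP_1ab439_an
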